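import Pool.Agent.Y219.EGH.Aci

/-!
The Cayley–Bacharach multiplicity bound for almost complete intersections in the last two intervals of
degrees, over any field.
-/

open MvPolynomial

namespace Pool.Agent.Results.MP_4cdbcc_ag.PenultimateInterval

/-- Let `K` be any field and `f_1, …, f_n ∈ K[x_1, …, x_n]` a regular sequence of forms of degrees
`0 < a_1 ≤ … ≤ a_n`, and put `S_k = ∑_{i ≤ k} (a_i - 1)`.  Let `g ∉ (f)` be a form of degree `D`,
`S_b ≤ D` and, if `b < n`, `D < S_(b+1)`; put `δ = S_(b+1) - D + 1` if `b < n` and `δ = 1` if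
`b = n`.  If `b ≥ n - 2`, that is `D ≥ S_(n-2)`, then the length of `K[x] / ((f) + (g))` is at most
`a_1 ⋯ a_n - δ a_(b+2) ⋯ a_n`. -/
theorem result (K : Type*) [Field K] (n : ℕ) (a : Fin n → ℕ) (ha : ∀ i, 0 < a i)
    (hmono : Monotone a) (f : Fin n → MvPolynomial (Fin n) K)
    (hf : ∀ i, (f i).IsHomogeneous (a i))
    (hreg : RingTheory.Sequence.IsRegular (MvPolynomial (Fin n) K) (List.ofFn f)) (D b : ℕ)
    (hD : D ≤ ∑ i : Fin n, (a i - 1)) (hb : b ≤ n) (hbn : n ≤ b + 2)
    (hbD : (∑ i ∈ Finset.univ.filter (fun i : Fin n => i.val < b), (a i - 1)) ≤ D)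
    (hbD' : b < n → D < ∑ i ∈ Finset.univ.filter (fun i : Fin n => i.val < b + 1), (a i - 1))
    (g : MvPolynomial (Fin n) K) (hg : g.IsHomogeneous D) (hgI : g ∉ Ideal.span (Set.range f)) :
    ((Module.finrank K (MvPolynomial (Fin n) K ⧸
        (Ideal.span (Set.range f) ⊔ Ideal.span {g})) : ℕ) : ℤ)
      ≤ (∏ i : Fin n, (a i : ℤ))
        - (if b < n then
            ((∑ i ∈ Finset.univ.filter (fun i : Fin n => i.val < b + 1), (a i - 1) : ℕ) : ℤ)
              - (D : ℤ) + 1
           else 1)
          * ∏ i ∈ Finset.univ.filter (fun i : Fin n => b + 1 ≤ i.val), (a i : ℤ) := by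
  classical
  have hreg' := H503R3.QCI.reg_of_isWeaklyRegular hreg.toIsWeaklyRegular
  rcases Nat.lt_or_ge b n with hlt | hge
  · rw [if_pos hlt]
    have hD' := hbD' hlt
    rcases Nat.lt_or_ge (b + 1) n with hlt2 | hge2
    · -- the penultimate interval
      obtain rfl : n = b + 2 := by omega
      have e1 : (Finset.univ.filter (fun i : Fin (b + 2) => ¬ i.val < b + 1)) =
          {Fin.last (b + 1)} := by
        ext i
        simp only [Finset.mem_filter, Finset.mem_univ, true_and, Finset.mem_singleton, Fin.ext_iff,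
          Fin.val_last]
        omega
      have e2 : (Finset.univ.filter (fun i : Fin (b + 2) => b + 1 ≤ i.val)) =
          {Fin.last (b + 1)} := by
        ext i
        simp only [Finset.mem_filter, Finset.mem_univ, true_and, Finset.mem_singleton, Fin.ext_iff,
          Fin.val_last]
        omega
      have e3 : (Finset.univ.filter (fun i : Fin (b + 2) => i.val < b + 1)) =
          insert (⟨b, by omega⟩ : Fin (b + 2)) (Finset.univ.filter (fun i : Fin (b + 2) => i.val < b)) := by
        ext i
        simp only [Finset.mem_filter, Finset.mem_univ, true_and, Finset.mem_insert, Fin.ext_iff]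
        omega
      have e4 := Finset.sum_filter_add_sum_filter_not Finset.univ
        (fun i : Fin (b + 2) => i.val < b + 1) (fun i => a i - 1)
      rw [e1, Finset.sum_singleton] at e4
      have e5 : (∑ i ∈ Finset.univ.filter (fun i : Fin (b + 2) => i.val < b + 1), (a i - 1)) =
          (a ⟨b, by omega⟩ - 1) +
            ∑ i ∈ Finset.univ.filter (fun i : Fin (b + 2) => i.val < b), (a i - 1) := by
        rw [e3, Finset.sum_insert (by simp)]
      have h1 : a ⟨b, by omega⟩ ≤ a (Fin.last (b + 1)) := hmono (Fin.le_last _)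
      have h2 := ha ⟨b, by omega⟩
      have h3 := ha (Fin.last (b + 1))
      set T := ∑ i ∈ Finset.univ.filter (fun i : Fin (b + 2) => i.val < b + 1), (a i - 1) with hT
      have key := Y219.EGH.aci_penult' hf ha hreg' (A := a (Fin.last (b + 1))) (D := D)
        (δ := T - D + 1) (fun i => hmono (Fin.le_last i)) hg hgI (by omega) (by omega) (by omega)
      rw [e2, Finset.prod_singleton]
      have h4 : ((T - D + 1 : ℕ) : ℤ) = (T : ℤ) - (D : ℤ) + 1 := by
        rw [Nat.cast_add, Nat.cast_sub (by omega), Nat.cast_one]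
      have h5 : ((Module.finrank K (MvPolynomial (Fin (b + 2)) K ⧸
          (Ideal.span (Set.range f) ⊔ Ideal.span {g})) : ℕ) : ℤ) +
          ((T - D + 1 : ℕ) : ℤ) * (a (Fin.last (b + 1)) : ℤ) ≤ ∏ i, (a i : ℤ) := by
        exact_mod_cast key
      rw [h4] at h5
      linarith
    · -- the last interval
      obtain rfl : n = b + 1 := by omega
      have e1 : (Finset.univ.filter (fun i : Fin (b + 1) => i.val < b + 1)) = Finset.univ := by
        ext i
        simp only [Finset.mem_filter, Finset.mem_univ, true_and, i.2]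
      have e2 : (Finset.univ.filter (fun i : Fin (b + 1) => b + 1 ≤ i.val)) = ∅ := by
        ext i
        have := i.2
        simp only [Finset.mem_filter, Finset.mem_univ, true_and, Finset.notMem_empty, iff_false]
        omega
      have key := Y219.EGH.aci_last hf ha hreg' hg hgI hD
      rw [e1, e2, Finset.prod_empty, mul_one]
      set T := ∑ i : Fin (b + 1), (a i - 1) with hT
      have h4 : ((T - D + 1 : ℕ) : ℤ) = (T : ℤ) - (D : ℤ) + 1 := by
        rw [Nat.cast_add, Nat.cast_sub (by omega), Nat.cast_one]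
      have h5 : ((Module.finrank K (MvPolynomial (Fin (b + 1)) K ⧸
          (Ideal.span (Set.range f) ⊔ Ideal.span {g})) : ℕ) : ℤ) +
          ((T - D + 1 : ℕ) : ℤ) ≤ ∏ i, (a i : ℤ) := by
        exact_mod_cast key
      rw [h4] at h5
      linarith
  · rw [if_neg (not_lt.2 hge), one_mul]
    have e2 : (Finset.univ.filter (fun i : Fin n => b + 1 ≤ i.val)) = ∅ := by
      ext i
      have := i.2
      simp only [Finset.mem_filter, Finset.mem_univ, true_and, Finset.notMem_empty, iff_false]
      omega
    have key := Y219.EGH.aci_last hf ha hreg' hg hgI hD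
    rw [e2, Finset.prod_empty]
    have h5 : ((Module.finrank K (MvPolynomial (Fin n) K ⧸
        (Ideal.span (Set.range f) ⊔ Ideal.span {g})) : ℕ) : ℤ) +
        ((∑ i, (a i - 1) - D + 1 : ℕ) : ℤ) ≤ ∏ i, (a i : ℤ) := by
      exact_mod_cast key
    have h6 : (1 : ℤ) ≤ ((∑ i, (a i - 1) - D + 1 : ℕ) : ℤ) := by
      exact_mod_cast Nat.le_add_left 1 _
    linarith

end Pool.Agent.Results.MP_4cdbcc_ag.PenultimateInterval
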